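import Pool.Agent.Helper37.OPG.Geo1
import Pool.Agent.Helper97.OPG.GeoTr

/-!
# Project OPG: GEO
-/

universe u v

namespace Pool.Agent.OPG

open MvPolynomial Pool.Agent.BT

/-- **GEO** (as `SX.geo`), the `ρ` fix moreover everything which is algebraic over `hi κ x`. -/
theorem geo {S : Type u} [Field S] [IsAlgClosed S] [CharZero S] {κ E K0 : Subfield S}
    (hκ : ∀ y : S, IsAlgebraic κ y → y ∈ κ) {T q : S} (hT : Transcendental κ T)
    (hq : TH.SplitAt κ T q) (hE : E = Subfield.closure ((κ : Set S) ∪ {T, q}))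
    {N d p r t : ℕ} (hp : 0 < p) (hd : d = p * r) (hd3 : 3 ≤ d) {ds : Fin t → ℕ} {m : ℕ}
    {x : IxV (N + 2) d ds × Fin (m + 2) → S} (hx : AlgebraicIndependent E x)
    (hK0 : K0 = Subfield.closure ((E : Set S) ∪ Set.range x))
    {w : Fin (m + 2) → S} (hw : ∀ e, w e ∈ E) (hw0 : w 0 = 1) (hw1 : w 1 = T)
    {U : Type} [Fintype U] {e : U → ℕ} {h : ∀ u, MonV (N + 2) (e u) → E}
    {g0 : ∀ s, MonV (N + 2) (ds s) → E} (hg0 : ∀ s q, (g0 s q : S) ∈ κ) {c : ℕ}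
    (hNoe : Noe (relS g0 h) c) :
    ∃ (n M : ℕ) (G : Fin d → MonV (N + 2) n → S) (W : MonV (N + 2) (r * n) → S)
      (H : MonV (N + 2) M → S) (H' : Fin t ⊕ U → MonV (N + 2) M → S)
      (D D' : Fin d → MonV (N + 2) M → S) (D'' : Fin d → Fin t ⊕ U → MonV (N + 2) M → S)
      (c : Fin d → Fin (M + 1) → S) (τ : S ≃+* S),
      n ≤ M ∧ 1 ≤ M ∧
      -- algebraicity
      (∀ i a, IsAlgebraic K0 (G i a)) ∧ (∀ a, IsAlgebraic K0 (W a)) ∧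
      (∀ a, IsAlgebraic K0 (H a)) ∧ (∀ u a, IsAlgebraic K0 (H' u a)) ∧
      (∀ i a, IsAlgebraic K0 (D i a)) ∧ (∀ i a, IsAlgebraic K0 (D' i a)) ∧
      (∀ i u a, IsAlgebraic K0 (D'' i u a)) ∧ (∀ i a, IsAlgebraic K0 (c i a)) ∧
      -- the identities
      ∏ i, pol (G i) = C T * pol W ^ p +
        comb (mainV x w) (relS (othV x w) (fun u q => (h u q : S))) H H' ∧
      (∃ (FA FB : MonV (N + 2) M → MonV (N + 2) (M - 1) → S) (FH : MonV (N + 2) M → MonV (N + 2) M → S)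
        (FH' : MonV (N + 2) M → Fin t ⊕ U → MonV (N + 2) M → S),
        (∀ q a, FA q a ∈ K0) ∧ (∀ q a, FB q a ∈ K0) ∧ (∀ q a, FH q a ∈ K0) ∧
        (∀ q u a, FH' q u a ∈ K0) ∧
        ∀ q, pol (FA q) * X 0 + pol (FB q) +
          comb (mainV x w) (relS (othV x w) (fun u q => (h u q : S))) (FH q) (FH' q) =
            monomial q.1 1) ∧
      (∀ i j, i ≠ j → Cop (G i) (G j) (mainV x w) (relS (othV x w) (fun u q => (h u q : S))) M) ∧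
      (∀ i, c i ≠ 0 ∧ pol (D i) * pol (G i) +
        comb (mainV x w) (relS (othV x w) (fun u q => (h u q : S))) (D' i) (D'' i) = polX (c i)) ∧
      -- the automorphism `τ`
      (∀ y ∈ K0, τ y = y) ∧
      (∀ y, IsAlgebraic (Subfield.closure ((κ : Set S) ∪ Set.range x)) y → τ y = y) ∧
      (∀ i a, τ (G i a) = G i a) ∧ (∀ a, τ (W a) = W a) ∧
      (∀ α : S, α ^ p = T → ∀ j : ℕ, ¬ p ∣ j → τ (α ^ j) ≠ α ^ j) ∧
      -- the transpositions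
      ∀ i j l, i ≠ j → j ≠ l → i ≠ l → ∃ ρ : S ≃+* S, (∀ y ∈ K0, ρ y = y) ∧
        (∀ y, IsAlgebraic (hi κ x) y → ρ y = y) ∧
        (∀ a, ρ (G i a) = G j a) ∧ (∀ a, ρ (G l a) = G l a) ∧
        ∀ y, IsAlgebraic K0 y → τ (ρ y) = ρ (τ y) :=
  geo_of_geo1' (fun _ _ _ _ _ _ _ φE hφc _ hφT _ _ _ _ _ _ hp hd hd3 _ _ _ _ _ hw0 hw1 _ _ _ hNoe =>
    geo1' φE hφc hφT hp hd hd3 hw0 hw1 hNoe) hκ hT hq hE hp hd hd3 hx hK0 hw hw0 hw1 hg0 hNoe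

end Pool.Agent.OPG
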